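import Mathlib
import Pool.Agent.helper78.CX.Defs

/-! # cx:ST : discrete Stokes -/

open Set

namespace Pool.Agent.helper78.CX

/-- representative of `q - p` modulo 3 in `{-1,0,1}` -/
def ST_om (p q : Fin 3) : ℤ := if q = p then 0 else if q = p + 1 then 1 else -1

theorem ST_om_neg (p q : Fin 3) : ST_om q p = -ST_om p q := by
  revert p q; decide

theorem ST_om_tri (p q r s : Fin 3)
    (h : ¬ ∀ i : Fin 3, p = i ∨ q = i ∨ s = i ∨ r = i) :
    ST_om p q + ST_om q r + ST_om r s + ST_om s p = 0 := by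
  revert p q r s; decide

/-- a path avoiding the colour `k` -/
theorem ST_path (k : Fin 3) (f : ℕ → Fin 3) (N : ℕ) (h : ∀ i ≤ N, f i ≠ k) :
    ∑ i ∈ Finset.range N, ST_om (f i) (f (i + 1)) = ST_om (f 0) (f N) := by
  induction N with
  | zero =>
    simp only [Finset.range_zero, Finset.sum_empty]
    generalize f 0 = a
    revert a; decide
  | succ N ih =>
    rw [Finset.sum_range_succ, ih (fun i hi => h i (by omega))]
    have h0 := h 0 (by omega)
    have h1 := h N (by omega)
    have h2 := h (N + 1) (by omega)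
    generalize f 0 = a at *
    generalize f N = b at *
    generalize f (N + 1) = c at *
    clear ih h
    revert k a b c
    decide

theorem ST_final : ∀ p q r s : Fin 3, ¬ ((p ≠ 0 ∧ p ≠ 1 ∧ q ≠ 1 ∧ q ≠ 2) ∧ (r ≠ 0 ∧ r ≠ 2 ∧ s ≠ 2) ∧
    0 = ST_om p q + ST_om q s - ST_om r s - ST_om p r) := by
  decide

/-- discrete Stokes formula -/
theorem ST_stokes (M N : ℕ) (g : ℕ → ℕ → Fin 3) :
    ∑ u ∈ Finset.range M, ∑ v ∈ Finset.range N,
      (ST_om (g u v) (g (u + 1) v) + ST_om (g (u + 1) v) (g (u + 1) (v + 1))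
        + ST_om (g (u + 1) (v + 1)) (g u (v + 1)) + ST_om (g u (v + 1)) (g u v)) =
    (∑ u ∈ Finset.range M, ST_om (g u 0) (g (u + 1) 0))
      + (∑ v ∈ Finset.range N, ST_om (g M v) (g M (v + 1)))
      - (∑ u ∈ Finset.range M, ST_om (g u N) (g (u + 1) N))
      - ∑ v ∈ Finset.range N, ST_om (g 0 v) (g 0 (v + 1)) := by
  have h1 : ∀ u v, (ST_om (g u v) (g (u + 1) v) + ST_om (g (u + 1) v) (g (u + 1) (v + 1))
        + ST_om (g (u + 1) (v + 1)) (g u (v + 1)) + ST_om (g u (v + 1)) (g u v)) =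
      -(ST_om (g u (v + 1)) (g (u + 1) (v + 1)) - ST_om (g u v) (g (u + 1) v))
      + (ST_om (g (u + 1) v) (g (u + 1) (v + 1)) - ST_om (g u v) (g u (v + 1))) := by
    intro u v
    rw [ST_om_neg (g u (v + 1)) (g (u + 1) (v + 1)), ST_om_neg (g u v) (g u (v + 1))]
    ring
  simp_rw [h1, Finset.sum_add_distrib, Finset.sum_neg_distrib]
  have h2 : ∀ u, ∑ v ∈ Finset.range N,
      (ST_om (g u (v + 1)) (g (u + 1) (v + 1)) - ST_om (g u v) (g (u + 1) v)) =
      ST_om (g u N) (g (u + 1) N) - ST_om (g u 0) (g (u + 1) 0) := by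
    intro u
    exact Finset.sum_range_sub (fun v => ST_om (g u v) (g (u + 1) v)) N
  have h3 : ∑ u ∈ Finset.range M, ∑ v ∈ Finset.range N,
      (ST_om (g (u + 1) v) (g (u + 1) (v + 1)) - ST_om (g u v) (g u (v + 1))) =
      ∑ v ∈ Finset.range N, (ST_om (g M v) (g M (v + 1)) - ST_om (g 0 v) (g 0 (v + 1))) := by
    rw [Finset.sum_comm]
    refine Finset.sum_congr rfl fun v _ => ?_
    exact Finset.sum_range_sub (fun u => ST_om (g u v) (g u (v + 1))) M
  rw [h3]
  simp_rw [h2, Finset.sum_sub_distrib]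
  ring

/-- if the boundary of the square `[-m, m]²` is coloured with `{0,1}` resp. `{2,0}`, `{1,2}` as in
Sperner's lemma then some unit square has all three colours. -/
theorem three_coloured_square (m : ℤ) (hm : 0 < m) (c : ℤ → ℤ → Fin 3)
    (hL : ∀ v, -m ≤ v → v ≤ m → c (-m) v ≠ 0)
    (hB : ∀ u, -m ≤ u → u ≤ m → c u (-m) ≠ 1)
    (hR : ∀ v, -m ≤ v → v ≤ m → c m v ≠ 2)
    (hT : ∀ u, -m ≤ u → u ≤ m → c u m ≠ 2) :
    ∃ u v, -m ≤ u ∧ u < m ∧ -m ≤ v ∧ v < m ∧
      ∀ i : Fin 3, c u v = i ∨ c (u + 1) v = i ∨ c u (v + 1) = i ∨ c (u + 1) (v + 1) = i := by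
  by_contra hcon
  push Not at hcon
  obtain ⟨N, hN⟩ : ∃ N : ℕ, (N : ℤ) = 2 * m := ⟨(2 * m).toNat, by omega⟩
  set g : ℕ → ℕ → Fin 3 := fun u v => c (-m + u) (-m + v) with hg
  have hst := ST_stokes N N g
  have hzero : ∑ u ∈ Finset.range N, ∑ v ∈ Finset.range N,
      (ST_om (g u v) (g (u + 1) v) + ST_om (g (u + 1) v) (g (u + 1) (v + 1))
        + ST_om (g (u + 1) (v + 1)) (g u (v + 1)) + ST_om (g u (v + 1)) (g u v)) = 0 := by
    refine Finset.sum_eq_zero fun u hu => Finset.sum_eq_zero fun v hv => ?_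
    rw [Finset.mem_range] at hu hv
    apply ST_om_tri
    intro hall
    obtain ⟨i, h1, h2, h3, h4⟩ := hcon (-m + u) (-m + v) (by omega) (by omega) (by omega) (by omega)
    have := hall i
    simp only [hg, Nat.cast_add, Nat.cast_one] at this
    rw [← add_assoc, ← add_assoc] at this
    rcases this with h | h | h | h
    · exact h1 h
    · exact h2 h
    · exact h3 h
    · exact h4 h
  rw [hzero] at hst
  have e0 : -m + (N : ℤ) = m := by omega
  have hb := ST_path 1 (fun u => g u 0) N (by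
    intro i hi
    simp only [hg, Nat.cast_zero, add_zero]
    exact hB _ (by omega) (by omega))
  have hr := ST_path 2 (fun v => g N v) N (by
    intro i hi
    simp only [hg, e0]
    exact hR _ (by omega) (by omega))
  have ht := ST_path 2 (fun u => g u N) N (by
    intro i hi
    simp only [hg, e0]
    exact hT _ (by omega) (by omega))
  have hl := ST_path 0 (fun v => g 0 v) N (by
    intro i hi
    simp only [hg, Nat.cast_zero, add_zero]
    exact hL _ (by omega) (by omega))
  rw [hb, hr, ht, hl] at hst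
  have c00 : g 0 0 = c (-m) (-m) := by simp [hg]
  have cN0 : g N 0 = c m (-m) := by simp [hg, e0]
  have c0N : g 0 N = c (-m) m := by simp [hg, e0]
  have cNN : g N N = c m m := by simp [hg, e0]
  rw [c00, cN0, c0N, cNN] at hst
  have a1 := hL (-m) (by omega) (by omega)
  have a2 := hB (-m) (by omega) (by omega)
  have a3 := hB m (by omega) (by omega)
  have a4 := hR (-m) (by omega) (by omega)
  have a5 := hL m (by omega) (by omega)
  have a6 := hT (-m) (by omega) (by omega)
  have a7 := hR m (by omega) (by omega)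
  exact ST_final _ _ _ _ ⟨⟨a1, a2, a3, a4⟩, ⟨a5, a6, a7⟩, hst⟩

end Pool.Agent.helper78.CX
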