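import Mathlib
import Pool.Agent.helper78.CX.Defs
import Pool.Agent.helper26.CX.ST

/-! # cx:PE : pentagon argument -/

open Set

namespace Pool.Agent.helper78.CX

theorem PE_fin (c0 c1 c2 c3 c4 : Fin 3)
    (h1 : ∀ i : Fin 3, i = c0 ∨ i = c1 ∨ i = c3)
    (h2 : ∀ i : Fin 3, i = c0 ∨ i = c2 ∨ i = c3)
    (h3 : ∀ i : Fin 3, i = c1 ∨ i = c2 ∨ i = c4) : False := by
  revert c0 c1 c2 c3 c4
  decide

theorem no_colouring (n : ℤ) (hn : 10 ≤ n) (c : ℤ × ℤ → Fin 3)
    (h0 : ∀ a : ℤ × ℤ, -n ≤ a.1 → a.1 ≤ n → -n ≤ a.2 → a.2 ≤ n → a.1 ≤ -n + 3 → c a ≠ 0)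
    (h1 : ∀ a : ℤ × ℤ, -n ≤ a.1 → a.1 ≤ n → -n ≤ a.2 → a.2 ≤ n → a.2 ≤ -n + 3 → c a ≠ 1)
    (h2 : ∀ a : ℤ × ℤ, -n + 1 ≤ a.1 → a.1 ≤ n → -n + 1 ≤ a.2 → a.2 ≤ n →
      (n - 3 ≤ a.1 ∨ n - 3 ≤ a.2) → c a ≠ 2)
    (hT : ∀ (j : Fin 3) (b : ℤ × ℤ),
      (∀ i, -n ≤ (b + tq j i).1 ∧ (b + tq j i).1 ≤ n ∧ -n ≤ (b + tq j i).2 ∧ (b + tq j i).2 ≤ n) →
      (∀ i, -n ≤ (b + cw i).1 ∧ (b + cw i).1 ≤ n ∧ -n ≤ (b + cw i).2 ∧ (b + cw i).2 ≤ n) →
      ∀ w : Fin 4, ∃ i : Fin 3, c (b + cw w) = c (b + tq j i)) : False := by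
  obtain ⟨u, v, hu1, hu2, hv1, hv2, hall⟩ := three_coloured_square (n - 1) (by omega)
    (fun u v => c (u, v))
    (fun v hv hv' => h0 _ (by simp only; omega) (by simp only; omega) (by simp only; omega)
      (by simp only; omega) (by simp only; omega))
    (fun u hu hu' => h1 _ (by simp only; omega) (by simp only; omega) (by simp only; omega)
      (by simp only; omega) (by simp only; omega))
    (fun v hv hv' => h2 _ (by simp only; omega) (by simp only; omega) (by simp only; omega)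
      (by simp only; omega) (by simp only; omega))
    (fun u hu hu' => h2 _ (by simp only; omega) (by simp only; omega) (by simp only; omega)
      (by simp only; omega) (by simp only; omega))
  have hall' : ∀ i : Fin 3, ∃ w : Fin 4, c ((u, v) + cw w) = i := by
    intro i
    rcases hall i with h | h | h | h
    · exact ⟨0, by simpa [cw] using h⟩
    · exact ⟨1, by simpa [cw] using h⟩
    · exact ⟨2, by simpa [cw] using h⟩
    · exact ⟨3, by simpa [cw] using h⟩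
  have hcw : ∀ w : Fin 4, 0 ≤ (cw w).1 ∧ (cw w).1 ≤ 1 ∧ 0 ≤ (cw w).2 ∧ (cw w).2 ≤ 1 := by
    intro w; fin_cases w <;> simp [cw]
  have htq : ∀ (j i : Fin 3), -3 ≤ (tq j i).1 ∧ (tq j i).1 ≤ 4 ∧ -3 ≤ (tq j i).2 ∧ (tq j i).2 ≤ 4 := by
    intro j i; fin_cases j <;> fin_cases i <;> simp [tq]
  have b1 : -n + 3 ≤ u := by
    obtain ⟨w, hw⟩ := hall' 0
    by_contra hlt
    obtain ⟨p1, p2, p3, p4⟩ := hcw w
    exact h0 ((u, v) + cw w) (by simp only [Prod.fst_add]; omega) (by simp only [Prod.fst_add]; omega)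
      (by simp only [Prod.snd_add]; omega) (by simp only [Prod.snd_add]; omega)
      (by simp only [Prod.fst_add]; omega) hw
  have b2 : -n + 3 ≤ v := by
    obtain ⟨w, hw⟩ := hall' 1
    by_contra hlt
    obtain ⟨p1, p2, p3, p4⟩ := hcw w
    exact h1 ((u, v) + cw w) (by simp only [Prod.fst_add]; omega) (by simp only [Prod.fst_add]; omega)
      (by simp only [Prod.snd_add]; omega) (by simp only [Prod.snd_add]; omega)
      (by simp only [Prod.snd_add]; omega) hw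
  have b3 : u ≤ n - 4 ∧ v ≤ n - 4 := by
    obtain ⟨w, hw⟩ := hall' 2
    by_contra hlt
    obtain ⟨p1, p2, p3, p4⟩ := hcw w
    exact h2 ((u, v) + cw w) (by simp only [Prod.fst_add]; omega) (by simp only [Prod.fst_add]; omega)
      (by simp only [Prod.snd_add]; omega) (by simp only [Prod.snd_add]; omega)
      (by simp only [Prod.fst_add, Prod.snd_add]; omega) hw
  have key : ∀ (j : Fin 3) (i : Fin 3), ∃ k : Fin 3, i = c ((u, v) + tq j k) := by
    intro j i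
    obtain ⟨w, hw⟩ := hall' i
    obtain ⟨k, hk⟩ := hT j (u, v)
      (fun i => by
        obtain ⟨p1, p2, p3, p4⟩ := htq j i
        simp only [Prod.fst_add, Prod.snd_add]
        omega)
      (fun i => by
        obtain ⟨p1, p2, p3, p4⟩ := hcw i
        simp only [Prod.fst_add, Prod.snd_add]
        omega) w
    exact ⟨k, by rw [← hk, hw]⟩
  refine PE_fin (c ((u, v) + (-3, -3))) (c ((u, v) + (1, -2))) (c ((u, v) + (4, 2)))
    (c ((u, v) + (2, 4))) (c ((u, v) + (-2, 1))) ?_ ?_ ?_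
  · intro i
    obtain ⟨k, hk⟩ := key 0 i
    fin_cases k
    · exact Or.inl hk
    · exact Or.inr (Or.inl hk)
    · exact Or.inr (Or.inr hk)
  · intro i
    obtain ⟨k, hk⟩ := key 1 i
    fin_cases k
    · exact Or.inl hk
    · exact Or.inr (Or.inl hk)
    · exact Or.inr (Or.inr hk)
  · intro i
    obtain ⟨k, hk⟩ := key 2 i
    fin_cases k
    · exact Or.inl hk
    · exact Or.inr (Or.inl hk)
    · exact Or.inr (Or.inr hk)

end Pool.Agent.helper78.CX
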