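import Mathlib
import Pool.Agent.helper78.CX.Defs

/-! # cx:PH : Poly as an H-polytope -/

open Set

namespace Pool.Agent.helper78.CX

section PolyH
variable {X J κ : Type*} [Fintype X] [Fintype J]

theorem PH_PLf (e : J ⊕ Fin 3 ≃ X) (N : κ → Fin 3 → ℝ) (w : κ → J → ℝ) (j : J)
    (x : EuclideanSpace ℝ X) : PL e N w (.inl (j, false)) x = -x (e (.inl j)) := by
  simp [PL]

theorem PH_PLt (e : J ⊕ Fin 3 ≃ X) (N : κ → Fin 3 → ℝ) (w : κ → J → ℝ) (j : J)
    (x : EuclideanSpace ℝ X) : PL e N w (.inl (j, true)) x = x (e (.inl j)) := by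
  simp [PL]

theorem PH_PLr (e : J ⊕ Fin 3 ≃ X) (N : κ → Fin 3 → ℝ) (w : κ → J → ℝ) (k : κ)
    (x : EuclideanSpace ℝ X) : PL e N w (.inr k) x =
      (∑ j, w k j * x (e (.inl j))) - ∑ i, N k i * x (e (.inr i)) := by
  simp [PL]

theorem PH_pt_inl (e : J ⊕ Fin 3 ≃ X) (s : J → ℝ) (y : Fin 3 → ℝ) (j : J) :
    pt e s y (e (.inl j)) = s j := by
  simp [pt]

theorem PH_pt_inr (e : J ⊕ Fin 3 ≃ X) (s : J → ℝ) (y : Fin 3 → ℝ) (i : Fin 3) :
    pt e s y (e (.inr i)) = y i := by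
  simp [pt]

theorem poly_eq (e : J ⊕ Fin 3 ≃ X) (N : κ → Fin 3 → ℝ) (c : κ → ℝ) (w : κ → J → ℝ) :
    Poly e N c w = HP (PL e N w) (Pb c) := by
  ext x
  simp only [Poly, HP, Set.mem_ofPred_eq]
  constructor
  · rintro ⟨h1, h2⟩ t
    rcases t with ⟨j, b⟩ | k
    · cases b
      · rw [PH_PLf]; simp only [Pb]; linarith [(h1 j).1]
      · rw [PH_PLt]; simp only [Pb]; exact (h1 j).2
    · rw [PH_PLr]; simp only [Pb]; linarith [h2 k]
  · intro h
    refine ⟨fun j => ⟨?_, ?_⟩, fun k => ?_⟩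
    · have := h (.inl (j, false))
      rw [PH_PLf] at this; simp only [Pb] at this; linarith
    · have := h (.inl (j, true))
      rw [PH_PLt] at this; simpa only [Pb] using this
    · have := h (.inr k)
      rw [PH_PLr] at this; simp only [Pb] at this; linarith

theorem pt_mem (e : J ⊕ Fin 3 ≃ X) (N : κ → Fin 3 → ℝ) (c : κ → ℝ) (w : κ → J → ℝ)
    (s : J → ℝ) (y : Fin 3 → ℝ) : pt e s y ∈ Poly e N c w ↔ InPoly N c w s y := by
  simp only [Poly, InPoly, Set.mem_ofPred_eq, PH_pt_inl, PH_pt_inr]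

theorem pt_surj (e : J ⊕ Fin 3 ≃ X) (x : EuclideanSpace ℝ X) :
    x = pt e (fun j => x (e (.inl j))) (fun i => x (e (.inr i))) := by
  ext z
  obtain ⟨a, rfl⟩ := e.surjective z
  rcases a with j | i
  · rw [PH_pt_inl]
  · rw [PH_pt_inr]

theorem pt_continuous (e : J ⊕ Fin 3 ≃ X) (s : J → ℝ) : Continuous (pt e s) := by
  unfold pt
  refine (PiLp.continuous_toLp 2 _).comp ?_
  refine continuous_pi fun x => ?_
  rcases e.symm x with j | i
  · exact continuous_const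
  · exact continuous_apply i

theorem pt_inj (e : J ⊕ Fin 3 ≃ X) (s s' : J → ℝ) (y y' : Fin 3 → ℝ)
    (h : pt e s y = pt e s' y') : s = s' ∧ y = y' := by
  constructor
  · ext j
    rw [← PH_pt_inl e s y j, h, PH_pt_inl]
  · ext i
    rw [← PH_pt_inr e s y i, h, PH_pt_inr]

/-- the interior point -/
theorem good_int (e : J ⊕ Fin 3 ≃ X) (N : κ → Fin 3 → ℝ) (c : κ → ℝ) (w : κ → J → ℝ)
    (hG : Good N c w) : ∃ x0, ∀ t, PL e N w t x0 < (Pb c : (J × Bool) ⊕ κ → ℝ) t := by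
  obtain ⟨s, y, h1, h2⟩ := hG.int
  refine ⟨pt e s y, ?_⟩
  rintro (⟨j, b⟩ | k)
  · cases b
    · rw [PH_PLf, PH_pt_inl]; simp only [Pb]; linarith [(h1 j).1]
    · rw [PH_PLt, PH_pt_inl]; simp only [Pb]; exact (h1 j).2
  · rw [PH_PLr]; simp only [Pb, PH_pt_inl, PH_pt_inr]; linarith [h2 k]

theorem good_W (e : J ⊕ Fin 3 ≃ X) (N : κ → Fin 3 → ℝ) (c : κ → ℝ) (w : κ → J → ℝ)
    (hG : Good N c w) (t : (J × Bool) ⊕ κ) : (HW (PL e N w) (Pb c) t).Nonempty := by
  rcases t with ⟨j, b⟩ | k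
  · obtain ⟨s, y, h0, h1, h2⟩ := hG.Wj j b
    refine ⟨pt e s y, ?_, ?_⟩
    · cases b
      · rw [PH_PLf, PH_pt_inl]; simp only [Pb]; simp [h0, bit]
      · rw [PH_PLt, PH_pt_inl]; simp only [Pb]; simp [h0, bit]
    · rintro (⟨j', b'⟩ | k) ht
      · by_cases hj : j' = j
        · subst hj
          have hb : b' ≠ b := fun hb => ht (by rw [hb])
          cases b' <;> cases b
          · exact absurd rfl hb
          · rw [PH_PLf, PH_pt_inl]; simp only [Pb]; rw [h0]; simp [bit]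
          · rw [PH_PLt, PH_pt_inl]; simp only [Pb]; rw [h0]; simp [bit]
          · exact absurd rfl hb
        · obtain ⟨p1, p2⟩ := h1 j' hj
          cases b'
          · rw [PH_PLf, PH_pt_inl]; simp only [Pb]; linarith
          · rw [PH_PLt, PH_pt_inl]; simp only [Pb]; exact p2
      · rw [PH_PLr]; simp only [Pb, PH_pt_inl, PH_pt_inr]; linarith [h2 k]
  · obtain ⟨s, y, h0, h1, h2⟩ := hG.Wk k
    refine ⟨pt e s y, ?_, ?_⟩
    · rw [PH_PLr]; simp only [Pb, PH_pt_inl, PH_pt_inr]; linarith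
    · rintro (⟨j', b'⟩ | k') ht
      · obtain ⟨p1, p2⟩ := h0 j'
        cases b'
        · rw [PH_PLf, PH_pt_inl]; simp only [Pb]; linarith
        · rw [PH_PLt, PH_pt_inl]; simp only [Pb]; exact p2
      · have hk : k' ≠ k := fun hk => ht (by rw [hk])
        rw [PH_PLr]; simp only [Pb, PH_pt_inl, PH_pt_inr]; linarith [h2 k' hk]

theorem PH_pt_mem_HG (e : J ⊕ Fin 3 ≃ X) (N : κ → Fin 3 → ℝ) (c : κ → ℝ) (w : κ → J → ℝ)
    (s : J → ℝ) (y : Fin 3 → ℝ) (j : J) (b : Bool) (h : InPoly N c w s y) (hs : s j = bit b) :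
    pt e s y ∈ HG (PL e N w) (Pb c) (.inl (j, b)) := by
  refine ⟨?_, ?_⟩
  · rw [← poly_eq, pt_mem]; exact h
  · cases b
    · rw [PH_PLf, PH_pt_inl]; simp only [Pb]; simp [hs, bit]
    · rw [PH_PLt, PH_pt_inl]; simp only [Pb]; simp [hs, bit]

/-- every face `t` except the opposite one meets the face `(j,b)` -/
theorem good_meet (e : J ⊕ Fin 3 ≃ X) (N : κ → Fin 3 → ℝ) (c : κ → ℝ) (w : κ → J → ℝ)
    (hG : Good N c w) (t : (J × Bool) ⊕ κ) (j : J) (b : Bool) (ht : t ≠ .inl (j, !b)) :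
    (HG (PL e N w) (Pb c) t ∩ HG (PL e N w) (Pb c) (.inl (j, b))).Nonempty := by
  rcases t with ⟨j', b'⟩ | k
  · by_cases hj : j' = j
    · subst hj
      have hb : b' = b := by
        by_contra hne
        apply ht
        cases b' <;> cases b <;> simp_all
      subst hb
      obtain ⟨s, y, h0, h1, h2⟩ := hG.Wj j' b'
      have hin : InPoly N c w s y := by
        refine ⟨fun i => ?_, fun k => (h2 k).le⟩
        by_cases hi : i = j'
        · subst hi
          rw [h0]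
          cases b' <;> simp [bit]
        · exact ⟨(h1 i hi).1.le, (h1 i hi).2.le⟩
      exact ⟨pt e s y, PH_pt_mem_HG e N c w s y j' b' hin h0, PH_pt_mem_HG e N c w s y j' b' hin h0⟩
    · obtain ⟨s, y, h0, h1, h2⟩ := hG.Ij j' j hj b' b
      exact ⟨pt e s y, PH_pt_mem_HG e N c w s y j' b' h0 h1, PH_pt_mem_HG e N c w s y j b h0 h2⟩
  · obtain ⟨s, y, h0, h1, h2⟩ := hG.Ik k j b
    refine ⟨pt e s y, ⟨?_, ?_⟩, PH_pt_mem_HG e N c w s y j b h0 h1⟩
    · rw [← poly_eq, pt_mem]; exact h0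
    · rw [PH_PLr]; simp only [Pb, PH_pt_inl, PH_pt_inr]; linarith

/-- the slice -/
theorem slice_iff (e : J ⊕ Fin 3 ≃ X) (N : κ → Fin 3 → ℝ) (c : κ → ℝ) (w : κ → J → ℝ)
    (s : J → Bool) (k : κ) (x : EuclideanSpace ℝ X) :
    ((∀ j, x ∈ HG (PL e N w) (Pb c) (.inl (j, s j))) ∧ x ∈ HG (PL e N w) (Pb c) (.inr k)) ↔
      ∃ y ∈ Face N (fun k => c k + ∑ j, w k j * bit (s j)) k, x = pt e (fun j => bit (s j)) y := by
  constructor
  · rintro ⟨h1, h2, h3⟩
    have hx : ∀ j, x (e (.inl j)) = bit (s j) := by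
      intro j
      have h := (h1 j).2
      generalize s j = b at h
      cases b
      · rw [PH_PLf] at h; simp only [Pb] at h; simp only [bit]; simp; linarith
      · rw [PH_PLt] at h; simp only [Pb] at h; simp only [bit]; simp [h]
    refine ⟨fun i => x (e (.inr i)), ⟨fun k' => ?_, ?_⟩, ?_⟩
    · rw [← poly_eq] at h2
      have := h2.2 k'
      simpa only [hx] using this
    · rw [PH_PLr] at h3; simp only [Pb, hx] at h3; simp only; linarith
    · have := pt_surj e x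
      simp only [hx] at this
      exact this
  · rintro ⟨y, ⟨h1, h2⟩, rfl⟩
    have hin : InPoly N c w (fun j => bit (s j)) y := by
      refine ⟨fun j => ?_, fun k => h1 k⟩
      show 0 ≤ bit (s j) ∧ bit (s j) ≤ 1
      generalize s j = b
      cases b <;> simp [bit]
    refine ⟨fun j => PH_pt_mem_HG e N c w _ y j (s j) hin rfl, ?_, ?_⟩
    · rw [← poly_eq, pt_mem]; exact hin
    · rw [PH_PLr]; simp only [Pb, PH_pt_inl, PH_pt_inr]; simp only at h2; linarith

end PolyH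

end Pool.Agent.helper78.CX
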