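import Mathlib
import Pool.Agent.helper78.CX.Defs
import Pool.Agent.helper26.CX.PH
import Pool.Agent.helper22.CX.HA

/-! # cx:PH2 : poly_polytope -/

open Set

namespace Pool.Agent.helper78.CX

section PolyH
variable {X J κ : Type*} [Fintype X] [Fintype J]

theorem poly_polytope [Finite κ] (e : J ⊕ Fin 3 ≃ X) (N : κ → Fin 3 → ℝ) (c : κ → ℝ)
    (w : κ → J → ℝ) (hb : Bornology.IsBounded (Poly e N c w)) : IsPolytope (Poly e N c w) := by
  rw [poly_eq] at hb ⊢
  exact hp_polytope _ _ hb

end PolyH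

end Pool.Agent.helper78.CX
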